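import Pool.Agent.H77.TL.ToolStm

/-!
# Crew TL, part TDRV (helper33)

`S_DRVY`, `S_DRVD` with the additional hypothesis `0 < cap` (they are false for `cap = 0`, where
there may be no box at all).
-/

set_option autoImplicit false

namespace Pool.MP324

/-- `S_DRVY` with `0 < cap` -/
def S_DRVYp : Prop := ∀ (F : ℕ → ℕ → A → A → A → A → Bool) (cap j0 : ℕ) (l : List (ℕ × List ℕ)),
  0 < cap → strips (stripY F) cap j0 l = true → stripsEnd j0 l ≤ 2896 →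
  ∀ μ y : ℝ, 0 ≤ μ → μ * 4096 ≤ cap → μ * (1 + y) ≤ 1 → (j0 : ℝ) / 4096 ≤ y →
    y ≤ (stripsEnd j0 l : ℝ) / 4096 → j0 < stripsEnd j0 l →
  ∃ (R1 R2 : ℕ) (a b μc Yc : ℝ) (X1 X2 X3 X4 : A), Disp R1 R2 a b ∧
    Rel a b X1 μc μ ∧ Rel a b X2 Yc (y ^ 2) ∧ Rel a b X3 (alf Yc) (alf (y ^ 2)) ∧
    Rel a b X4 (bef Yc) (bef (y ^ 2)) ∧ F R1 R2 X1 X2 X3 X4 = true

/-- `S_DRVD` with `0 < cap` -/
def S_DRVDp : Prop := ∀ (F : ℕ → ℕ → A → A → A → A → Bool) (cap j0 : ℕ) (l : List (ℕ × List ℕ)),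
  0 < cap → strips (stripD F) cap j0 l = true → stripsEnd j0 l ≤ 4095 →
  ∀ μ y : ℝ, 0 ≤ μ → μ * 4096 ≤ cap → μ * (1 + y) ≤ 1 → (j0 : ℝ) / 4096 ≤ y →
    y ≤ (stripsEnd j0 l : ℝ) / 4096 → j0 < stripsEnd j0 l →
  ∃ (R1 R2 : ℕ) (a b μc yc : ℝ) (X1 X2 X3 X4 : A), Disp R1 R2 a b ∧
    Rel a b X1 μc μ ∧ Rel a b X2 yc y ∧ Rel a b X3 (lp yc) (lp y) ∧
    Rel a b X4 (- lm yc) (- lm y) ∧ F R1 R2 X1 X2 X3 X4 = true

theorem rel_mu (b b' : ℕ) (μ c : ℝ) (h1 : (b : ℝ) ≤ μ * 4096) (h2 : μ * 4096 ≤ b') :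
    |μ - ((b : ℝ) + b') * 131072 / 2 ^ 30| * 2 ^ 30 ≤ ((Nat.mul (Nat.sub b' b) 131072 : ℕ) : ℝ) ∧
    Rel (μ - ((b : ℝ) + b') * 131072 / 2 ^ 30) c
      ⟨true, Int.ofNat (Nat.mul (Nat.add b b') 131072), 0, Nat.mul (Nat.sub b' b) 131072,
        1073741824, 0, 0, 0⟩ (((b : ℝ) + b') * 131072 / 2 ^ 30) μ := by
  have hbb : b ≤ b' := by
    have : (b : ℝ) ≤ b' := h1.trans h2
    exact_mod_cast this
  have e1 : ((Nat.mul (Nat.sub b' b) 131072 : ℕ) : ℝ) = ((b' : ℝ) - b) * 131072 := by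
    change (((b' - b) * 131072 : ℕ) : ℝ) = _
    rw [Nat.cast_mul, Nat.cast_sub hbb]
    norm_num
  have e2 : ((Int.ofNat (Nat.mul (Nat.add b b') 131072) : ℤ) : ℝ) = ((b : ℝ) + b') * 131072 := by
    change ((((b + b') * 131072 : ℕ) : ℤ) : ℝ) = _
    push_cast
    ring
  have e3 : |μ * 2 ^ 30 - ((b : ℝ) + b') * 131072| ≤ ((b' : ℝ) - b) * 131072 := by
    rw [abs_le]
    constructor
    · linarith
    · linarith
  have e4 : |μ - ((b : ℝ) + b') * 131072 / 2 ^ 30| * 2 ^ 30 =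
      |μ * 2 ^ 30 - ((b : ℝ) + b') * 131072| := by
    rw [← abs_of_pos (show (0 : ℝ) < 2 ^ 30 by positivity), ← abs_mul]
    congr 1
    rw [abs_of_pos (show (0 : ℝ) < 2 ^ 30 by positivity)]
    field_simp
  constructor
  · rw [e1, e4]
    exact e3
  · intro _
    refine ⟨?_, ?_, 1, 0, by ring, ?_, ?_⟩
    · simp only
      rw [e2]
      rw [show ((b : ℝ) + b') * 131072 / 2 ^ 30 * 2 ^ 30 - ((b : ℝ) + b') * 131072 = 0 by
        field_simp; ring]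
      simp
    · simp only
      rw [e2, e1]
      exact e3
    · simp only
      norm_num
    · simp

theorem box_lemma (F : ℕ → A → Bool) : ∀ (bs : List ℕ) (b : ℕ), boxMu F b bs = true → bs ≠ [] →
    ∀ μ : ℝ, (b : ℝ) ≤ μ * 4096 → μ * 4096 ≤ ((bs.getLastD b : ℕ) : ℝ) →
    ∃ (R1 : ℕ) (μc : ℝ) (X1 : A), |μ - μc| * 2 ^ 30 ≤ (R1 : ℝ) ∧
      (∀ c : ℝ, Rel (μ - μc) c X1 μc μ) ∧ F R1 X1 = true := by
  intro bs
  induction bs with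
  | nil => intro b _ h; exact absurd rfl h
  | cons b' l ih =>
    intro b h _ μ h1 h2
    simp only [boxMu, Bool.and_eq_true] at h
    by_cases h3 : μ * 4096 ≤ (b' : ℝ)
    · exact ⟨_, _, _, (rel_mu b b' μ 0 h1 h3).1, fun c => (rel_mu b b' μ c h1 h3).2, h.1⟩
    · push Not at h3
      rw [List.getLastD_cons] at h2
      have hl : l ≠ [] := by
        intro hl
        subst hl
        simp only [List.getLastD_nil] at h2
        linarith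
      exact ih b' h.2 hl μ h3.le h2

theorem stripsEnd_ge (S : ℕ → ℕ → List ℕ → Bool) (cap : ℕ) : ∀ (l : List (ℕ × List ℕ)) (j0 : ℕ),
    strips S cap j0 l = true → j0 ≤ stripsEnd j0 l := by
  intro l
  induction l with
  | nil => intro j0 _; exact le_refl _
  | cons p l ih =>
    obtain ⟨j1, bs⟩ := p
    intro j0 h
    simp only [strips, Bool.and_eq_true] at h
    have h1 : j0 + 1 ≤ j1 := Nat.le_of_ble_eq_true h.1.1
    have h2 := ih j1 h.2.2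
    change j0 ≤ stripsEnd j1 l
    omega

theorem strips_find (S : ℕ → ℕ → List ℕ → Bool) (cap : ℕ) : ∀ (l : List (ℕ × List ℕ)) (j0 : ℕ),
    strips S cap j0 l = true → j0 < stripsEnd j0 l → ∀ y : ℝ, (j0 : ℝ) / 4096 ≤ y →
    y ≤ (stripsEnd j0 l : ℝ) / 4096 →
    ∃ (j j1 : ℕ) (bs : List ℕ), j < j1 ∧ j1 ≤ stripsEnd j0 l ∧ (j : ℝ) / 4096 ≤ y ∧
      y ≤ (j1 : ℝ) / 4096 ∧ lastOK cap j bs = true ∧ S j j1 bs = true := by
  intro l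
  induction l with
  | nil => intro j0 _ h; exact absurd h (lt_irrefl _)
  | cons p l ih =>
    obtain ⟨j1, bs⟩ := p
    intro j0 h _ y h1 h2
    simp only [strips, Bool.and_eq_true] at h
    have h3 : j0 + 1 ≤ j1 := Nat.le_of_ble_eq_true h.1.1
    change y ≤ (stripsEnd j1 l : ℝ) / 4096 at h2
    by_cases h4 : y ≤ (j1 : ℝ) / 4096
    · exact ⟨j0, j1, bs, h3, stripsEnd_ge S cap l j1 h.2.2, h1, h4, h.1.2, h.2.1⟩
    · push Not at h4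
      have h5 : j1 < stripsEnd j1 l := by
        have : (j1 : ℝ) / 4096 < (stripsEnd j1 l : ℝ) / 4096 := h4.trans_le h2
        have h6 : (j1 : ℝ) < (stripsEnd j1 l : ℝ) := by linarith
        exact_mod_cast h6
      exact ih j1 h.2.2 h5 y h4.le h2

theorem last_ok (cap j : ℕ) (bs : List ℕ) (hcap : 0 < cap) (h : lastOK cap j bs = true) (μ y : ℝ)
    (h0 : 0 ≤ μ) (h1 : μ * 4096 ≤ cap) (h2 : μ * (1 + y) ≤ 1) (h3 : (j : ℝ) / 4096 ≤ y) :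
    bs ≠ [] ∧ μ * 4096 ≤ ((bs.getLastD 0 : ℕ) : ℝ) := by
  simp only [lastOK, Bool.or_eq_true] at h
  rcases h with h | h
  · have h4 : cap ≤ bs.getLastD 0 := Nat.le_of_ble_eq_true h
    refine ⟨?_, h1.trans (by exact_mod_cast h4)⟩
    intro hb
    subst hb
    simp only [List.getLastD_nil] at h4
    omega
  · have h4 : 16777216 ≤ bs.getLastD 0 * (4096 + j) := Nat.le_of_ble_eq_true h
    refine ⟨?_, ?_⟩
    · intro hb
      subst hb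
      simp only [List.getLastD_nil] at h4
      omega
    · have h5 : (16777216 : ℝ) ≤ ((bs.getLastD 0 : ℕ) : ℝ) * (4096 + (j : ℝ)) := by
        exact_mod_cast h4
      have h6 : μ * (1 + (j : ℝ) / 4096) ≤ 1 := by
        refine le_trans ?_ h2
        apply mul_le_mul_of_nonneg_left _ h0
        linarith
      have h7 : (0 : ℝ) < 4096 + (j : ℝ) := by positivity
      have h8 : μ * 4096 * (4096 + (j : ℝ)) ≤ ((bs.getLastD 0 : ℕ) : ℝ) * (4096 + (j : ℝ)) := by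
        refine le_trans ?_ h5
        have : μ * 4096 * (4096 + (j : ℝ)) = 16777216 * (μ * (1 + (j : ℝ) / 4096)) := by ring
        rw [this]
        linarith
      exact le_of_mul_le_mul_right h8 h7

/-- the tuple of the second variable -/
theorem rel_two (z : ℝ) (a : ℝ) (C R : ℕ) (h : |z * 2 ^ 30 - (C : ℝ)| ≤ (R : ℝ)) :
    |z - (C : ℝ) / 2 ^ 30| * 2 ^ 30 ≤ (R : ℝ) ∧
    Rel a (z - (C : ℝ) / 2 ^ 30) ⟨true, Int.ofNat C, 0, R, 0, 0, 1073741824, 0⟩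
      ((C : ℝ) / 2 ^ 30) z := by
  have e2 : ((Int.ofNat C : ℤ) : ℝ) = (C : ℝ) := by
    change (((C : ℕ) : ℤ) : ℝ) = _
    push_cast
    rfl
  constructor
  · have e4 : |z - (C : ℝ) / 2 ^ 30| * 2 ^ 30 = |z * 2 ^ 30 - (C : ℝ)| := by
      rw [← abs_of_pos (show (0 : ℝ) < 2 ^ 30 by positivity), ← abs_mul]
      congr 1
      rw [abs_of_pos (show (0 : ℝ) < 2 ^ 30 by positivity)]
      field_simp
    rw [e4]; exact h
  · intro _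
    refine ⟨?_, ?_, 0, 1, by ring, ?_, ?_⟩
    · simp only
      rw [e2]
      rw [show (C : ℝ) / 2 ^ 30 * 2 ^ 30 - (C : ℝ) = 0 by field_simp; ring]
      simp
    · simp only
      rw [e2]
      exact h
    · simp
    · simp only
      norm_num

theorem t_DRVY (hch : S_CH) (hser : S_SER) : S_DRVYp := by
  intro F cap j0 l hcap hs hend μ y hμ hμc hμy hy0 hy1 hlt
  obtain ⟨j, j1, bs, hj, hj1, hyj, hyj1, hlast, hS⟩ :=
    strips_find (stripY F) cap l j0 hs hlt y hy0 hy1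
  obtain ⟨hbs, hμl⟩ := last_ok cap j bs hcap hlast μ y hμ hμc hμy hyj
  have hj1' : j1 ≤ 2896 := hj1.trans hend
  unfold stripY at hS
  simp only at hS
  obtain ⟨R1, μc, X1, hR1, hX1, hF⟩ := box_lemma _ bs 0 hS hbs μ (by simpa using by positivity) hμl
  -- the numbers
  obtain ⟨Y0, hY0⟩ : ∃ Y0 : ℕ, Y0 = Nat.mul 64 (Nat.mul j j) := ⟨_, rfl⟩
  obtain ⟨Y1, hY1⟩ : ∃ Y1 : ℕ, Y1 = Nat.mul 64 (Nat.mul j1 j1) := ⟨_, rfl⟩
  obtain ⟨Yc, hYc⟩ : ∃ Yc : ℕ, Yc = Nat.mul 32 (Nat.add (Nat.mul j j) (Nat.mul j1 j1)) := ⟨_, rfl⟩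
  obtain ⟨R2, hR2⟩ : ∃ R2 : ℕ, R2 = Nat.mul 32 (Nat.sub (Nat.mul j1 j1) (Nat.mul j j)) := ⟨_, rfl⟩
  rw [← hY0, ← hY1, ← hYc, ← hR2] at hF
  have g0 : Y0 = 64 * (j * j) := hY0
  have g1 : Y1 = 64 * (j1 * j1) := hY1
  have gc : Yc = 32 * (j * j + j1 * j1) := hYc
  have g2 : R2 = 32 * (j1 * j1 - j * j) := hR2
  have hjj : j * j < j1 * j1 := Nat.mul_self_lt_mul_self hj
  have hjj1 : j1 * j1 ≤ 2896 * 2896 := Nat.mul_le_mul hj1' hj1'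
  have k1 : Y0 < Yc := by omega
  have k2 : Yc < Y1 := by omega
  have k3 : Y1 ≤ 2 ^ 29 := by
    rw [g1]
    calc 64 * (j1 * j1) ≤ 64 * (2896 * 2896) := Nat.mul_le_mul_left _ hjj1
      _ ≤ 2 ^ 29 := by norm_num
  have hsub : Set.Icc ((Y0 : ℝ) / 2 ^ 30) ((Y1 : ℝ) / 2 ^ 30) ⊆ Set.Icc 0 (1 / 2 : ℝ) := by
    apply Set.Icc_subset_Icc
    · positivity
    · have : (Y1 : ℝ) ≤ 2 ^ 29 := by exact_mod_cast k3
      rw [div_le_div_iff₀ (by positivity) (by norm_num)]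
      linarith
  have hyy : y ^ 2 ∈ Set.Icc ((Y0 : ℝ) / 2 ^ 30) ((Y1 : ℝ) / 2 ^ 30) := by
    have a1 : (0 : ℝ) ≤ (j : ℝ) / 4096 := by positivity
    have a2 : ((j : ℝ) / 4096) ^ 2 ≤ y ^ 2 := pow_le_pow_left₀ a1 hyj 2
    have a3 : y ^ 2 ≤ ((j1 : ℝ) / 4096) ^ 2 := pow_le_pow_left₀ (a1.trans hyj) hyj1 2
    have b0 : (Y0 : ℝ) / 2 ^ 30 = ((j : ℝ) / 4096) ^ 2 := by
      rw [g0]; push_cast; ring
    have b1 : (Y1 : ℝ) / 2 ^ 30 = ((j1 : ℝ) / 4096) ^ 2 := by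
      rw [g1]; push_cast; ring
    rw [b0, b1]
    exact ⟨a2, a3⟩
  have hcY : |y ^ 2 * 2 ^ 30 - (Yc : ℝ)| ≤ (R2 : ℝ) := by
    have b2 : (R2 : ℝ) = 32 * ((j1 : ℝ) * j1 - j * j) := by
      rw [g2, Nat.cast_mul, Nat.cast_sub hjj.le]; push_cast; ring
    have bc : (Yc : ℝ) = 32 * ((j : ℝ) * j + j1 * j1) := by
      rw [gc]; push_cast; ring
    have c0 : (Y0 : ℝ) ≤ y ^ 2 * 2 ^ 30 := by
      have := hyy.1
      rw [div_le_iff₀ (by positivity)] at this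
      exact this
    have c1 : y ^ 2 * 2 ^ 30 ≤ (Y1 : ℝ) := by
      have := hyy.2
      rw [le_div_iff₀ (by positivity)] at this
      exact this
    have d0 : (Y0 : ℝ) = 64 * ((j : ℝ) * j) := by rw [g0]; push_cast; ring
    have d1 : (Y1 : ℝ) = 64 * ((j1 : ℝ) * j1) := by rw [g1]; push_cast; ring
    rw [abs_le, b2, bc]
    constructor <;> nlinarith
  obtain ⟨s1, s2, s3, s4, s5, s6, s7⟩ := hser
  have k0 : Y0 ≤ 2 ^ 29 := by omega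
  have kc : Yc ≤ 2 ^ 29 := by omega
  obtain ⟨r1, r2⟩ := rel_two (y ^ 2) (μ - μc) Yc R2 hcY
  refine ⟨R1, R2, μ - μc, y ^ 2 - (Yc : ℝ) / 2 ^ 30, μc, (Yc : ℝ) / 2 ^ 30, X1, _, _, _,
    ⟨hR1, r1⟩, hX1 _, r2, ?_, ?_, hF⟩
  · exact hch alf Y0 Yc Y1 _ _ _ _ _ _ k1 k2 (Or.inl (s3.subset hsub (convex_Icc _ _)))
      (s4.mono hsub) (s1 Y0 k0 40).1 (s1 Y0 k0 40).2 (s1 Yc kc 40).1 (s1 Yc kc 40).2
      (s1 Y1 k3 40).1 (s1 Y1 k3 40).2 (μ - μc) (y ^ 2) hyy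
  · exact hch bef Y0 Yc Y1 _ _ _ _ _ _ k1 k2 (Or.inl (s5.subset hsub (convex_Icc _ _)))
      (s6.mono hsub) (s2 Y0 k0 40).1 (s2 Y0 k0 40).2 (s2 Yc kc 40).1 (s2 Yc kc 40).2
      (s2 Y1 k3 40).1 (s2 Y1 k3 40).2 (μ - μc) (y ^ 2) hyy

theorem t_DRVD (hch : S_CH) (hlg : S_LG) : S_DRVDp := by
  intro F cap j0 l hcap hs hend μ y hμ hμc hμy hy0 hy1 hlt
  obtain ⟨j, j1, bs, hj, hj1, hyj, hyj1, hlast, hS⟩ :=
    strips_find (stripD F) cap l j0 hs hlt y hy0 hy1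
  obtain ⟨hbs, hμl⟩ := last_ok cap j bs hcap hlast μ y hμ hμc hμy hyj
  have hj1' : j1 ≤ 4095 := hj1.trans hend
  unfold stripD at hS
  simp only at hS
  obtain ⟨R1, μc, X1, hR1, hX1, hF⟩ := box_lemma _ bs 0 hS hbs μ (by simpa using by positivity) hμl
  obtain ⟨y0, hy0'⟩ : ∃ y0 : ℕ, y0 = Nat.mul 262144 j := ⟨_, rfl⟩
  obtain ⟨y1, hy1'⟩ : ∃ y1 : ℕ, y1 = Nat.mul 262144 j1 := ⟨_, rfl⟩
  obtain ⟨yc, hyc'⟩ : ∃ yc : ℕ, yc = Nat.mul 131072 (Nat.add j j1) := ⟨_, rfl⟩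
  obtain ⟨R2, hR2⟩ : ∃ R2 : ℕ, R2 = Nat.mul 131072 (Nat.sub j1 j) := ⟨_, rfl⟩
  rw [← hy0', ← hy1', ← hyc', ← hR2] at hF
  have g0 : y0 = 262144 * j := hy0'
  have g1 : y1 = 262144 * j1 := hy1'
  have gc : yc = 131072 * (j + j1) := hyc'
  have g2 : R2 = 131072 * (j1 - j) := hR2
  have k1 : y0 < yc := by omega
  have k2 : yc < y1 := by omega
  have k3 : y1 < 2 ^ 30 := by omega
  have hsub : Set.Icc ((y0 : ℝ) / 2 ^ 30) ((y1 : ℝ) / 2 ^ 30) ⊆ Set.Ico 0 (1 : ℝ) := by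
    intro z hz
    refine ⟨le_trans (by positivity) hz.1, lt_of_le_of_lt hz.2 ?_⟩
    have : (y1 : ℝ) < 2 ^ 30 := by exact_mod_cast k3
    rw [div_lt_one (by positivity)]
    exact this
  have hyy : y ∈ Set.Icc ((y0 : ℝ) / 2 ^ 30) ((y1 : ℝ) / 2 ^ 30) := by
    have b0 : (y0 : ℝ) / 2 ^ 30 = (j : ℝ) / 4096 := by
      rw [g0]; push_cast; ring
    have b1 : (y1 : ℝ) / 2 ^ 30 = (j1 : ℝ) / 4096 := by
      rw [g1]; push_cast; ring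
    rw [b0, b1]
    exact ⟨hyj, hyj1⟩
  have hcY : |y * 2 ^ 30 - (yc : ℝ)| ≤ (R2 : ℝ) := by
    have b2 : (R2 : ℝ) = 131072 * ((j1 : ℝ) - j) := by
      rw [g2, Nat.cast_mul, Nat.cast_sub hj.le]; push_cast; ring
    have bc : (yc : ℝ) = 131072 * ((j : ℝ) + j1) := by
      rw [gc]; push_cast; ring
    rw [abs_le, b2, bc]
    constructor <;> nlinarith
  obtain ⟨s1, s2, s3, s4, s5, s6⟩ := hlg
  have k0 : y0 < 2 ^ 30 := by omega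
  have kc : yc < 2 ^ 30 := by omega
  obtain ⟨r1, r2⟩ := rel_two y (μ - μc) yc R2 hcY
  refine ⟨R1, R2, μ - μc, y - (yc : ℝ) / 2 ^ 30, μc, (yc : ℝ) / 2 ^ 30, X1, _, _, _,
    ⟨hR1, r1⟩, hX1 _, r2, ?_, ?_, hF⟩
  · exact hch lp y0 yc y1 _ _ _ _ _ _ k1 k2 (Or.inr (s3.subset hsub (convex_Icc _ _)))
      (s4.mono hsub) (s1 y0 k0.le).1 (s1 y0 k0.le).2 (s1 yc kc.le).1 (s1 yc kc.le).2
      (s1 y1 k3.le).1 (s1 y1 k3.le).2 (μ - μc) y hyy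
  · exact hch (fun y => - lm y) y0 yc y1 _ _ _ _ _ _ k1 k2
      (Or.inl (s5.subset hsub (convex_Icc _ _)))
      (s6.mono hsub) (s2 y0 k0).1 (s2 y0 k0).2 (s2 yc kc).1 (s2 yc kc).2
      (s2 y1 k3).1 (s2 y1 k3).2 (μ - μc) y hyy

end Pool.MP324
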